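import Mathlib

/-!
# The Sidon defect of the set of multinomial coefficients

`P n` is the set of products `p_1! ... p_t!` over the partitions of `n`; the multinomial
coefficients are the numbers `n! / N` with `N ∈ P n`.

* `sum_bad`, `bad_small`: for fixed `q` almost all `N ∈ P n` are of the form `K * q!` with
  `K ∈ P (n - q)`. If `N` is not of this form and `a` is a part of a partition belonging to `N`,
  replace `a` by `a / q` parts `q` and `a % q` parts `1`; from the result and `a % q` one recovers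
  `a` and `N`, and the partition of a typical `N` has many distinct parts.
* So for fixed `L` and almost all multinomial coefficients `x` all of `x, 2 x, ..., L x` are
  multinomial coefficients. A Sidon set contains at most `2 √L` of these, and double counting
  gives `s(n) = o(M(n))`.
-/

set_option autoImplicit false

namespace Pool.Agent.Results.MP_0896da_co.SidonDefect
open Finset Nat Filter

/-- The products `p_1! ... p_t!` over all partitions `p_1 + ... + p_t = n`. -/
def P (n : ℕ) : Finset ℕ :=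
  (Finset.univ : Finset (Nat.Partition n)).image fun p => (p.parts.map Nat.factorial).prod

theorem mem_P {n N : ℕ} : N ∈ P n ↔ ∃ l : Multiset ℕ, (∀ a ∈ l, 0 < a) ∧ l.sum = n ∧
    (l.map Nat.factorial).prod = N := by
  simp only [P, Finset.mem_image, Finset.mem_univ, true_and]
  constructor
  · rintro ⟨p, rfl⟩
    exact ⟨p.parts, fun a ha => p.parts_pos ha, p.parts_sum, rfl⟩
  · rintro ⟨l, h1, h2, rfl⟩
    exact ⟨⟨l, fun {a} ha => h1 a ha, h2⟩, rfl⟩

theorem P_pos {n N : ℕ} (h : N ∈ P n) : 0 < N := by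
  obtain ⟨l, -, -, rfl⟩ := mem_P.1 h
  apply Nat.pos_of_ne_zero
  intro h0
  rw [Multiset.prod_eq_zero_iff] at h0
  obtain ⟨a, -, ha⟩ := Multiset.mem_map.1 h0
  exact Nat.factorial_ne_zero a ha

theorem mul_mem {a b N M : ℕ} (hN : N ∈ P a) (hM : M ∈ P b) : N * M ∈ P (a + b) := by
  obtain ⟨l, h1, h2, rfl⟩ := mem_P.1 hN
  obtain ⟨l', h1', h2', rfl⟩ := mem_P.1 hM
  refine mem_P.2 ⟨l + l', ?_, by simp [h2, h2'], by simp⟩
  intro x hx
  rcases Multiset.mem_add.1 hx with h | h
  · exact h1 x h
  · exact h1' x h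

theorem factorial_mem (a : ℕ) : a ! ∈ P a := by
  rcases Nat.eq_zero_or_pos a with rfl | h
  · exact mem_P.2 ⟨0, by simp, by simp, by simp⟩
  · exact mem_P.2 ⟨{a}, by simpa using h, by simp, by simp⟩

theorem one_mem (a : ℕ) : 1 ∈ P a :=
  mem_P.2 ⟨Multiset.replicate a 1, fun x hx => by
    rw [Multiset.eq_of_mem_replicate hx]; exact one_pos, by simp, by simp⟩

theorem P_mono {a b : ℕ} (h : a ≤ b) : P a ⊆ P b := by
  intro N hN
  obtain ⟨c, rfl⟩ := Nat.exists_eq_add_of_le h
  simpa using mul_mem hN (one_mem c)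

theorem pow_mem (q i : ℕ) : (q !) ^ i ∈ P (q * i) := by
  induction i with
  | zero => simpa using one_mem 0
  | succ i ih =>
    rw [pow_succ, Nat.mul_succ]
    exact mul_mem ih (factorial_mem q)

/-- A chosen partition with a given product of factorials. -/
noncomputable def parts (n N : ℕ) : Multiset ℕ :=
  open Classical in if h : N ∈ P n then (mem_P.1 h).choose else 0

theorem parts_spec {n N : ℕ} (h : N ∈ P n) : (∀ a ∈ parts n N, 0 < a) ∧ (parts n N).sum = n ∧
    ((parts n N).map Nat.factorial).prod = N := by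
  rw [parts, dif_pos h]
  exact (mem_P.1 h).choose_spec

/-- Removing a part. -/
theorem remove_part {n N a : ℕ} (h : N ∈ P n) (ha : a ∈ parts n N) :
    a ≤ n ∧ ∃ K ∈ P (n - a), N = K * a ! := by
  obtain ⟨h1, h2, h3⟩ := parts_spec h
  obtain ⟨l, hl⟩ := Multiset.exists_cons_of_mem ha
  rw [hl] at h1 h2 h3
  simp only [Multiset.sum_cons, Multiset.map_cons, Multiset.prod_cons] at h2 h3
  refine ⟨by omega, _, mem_P.2 ⟨l, fun x hx => h1 x (Multiset.mem_cons_of_mem hx), by omega, rfl⟩,
    ?_⟩
  rw [← h3, mul_comm]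

/-- The elements of `P n` that are not of the form `K * q!` with `K ∈ P (n - q)`. -/
noncomputable def bad (q n : ℕ) : Finset ℕ :=
  open Classical in (P n).filter fun N => ¬ ∃ K, q ≤ n ∧ K ∈ P (n - q) ∧ N = K * q !

theorem sum_bad (q n : ℕ) (hq : 0 < q) :
    ∑ N ∈ bad q n, (parts n N).toFinset.card ≤ (P n).card * q := by
  classical
  rw [← Finset.card_sigma]
  have hcard : (P n).card * q = ((P n) ×ˢ (Finset.range q)).card := by simp
  rw [hcard]
  refine Finset.card_le_card_of_injOn
    (fun x => ((x.1 / x.2 !) * (q !) ^ (x.2 / q), x.2 % q)) ?_ ?_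
  · rintro ⟨N, a⟩ hx
    simp only [Finset.coe_sigma, Set.mem_sigma_iff, Finset.mem_coe, Multiset.mem_toFinset] at hx
    obtain ⟨hN, ha⟩ := hx
    have hNP : N ∈ P n := (Finset.mem_filter.1 hN).1
    obtain ⟨han, K, hK, rfl⟩ := remove_part hNP ha
    simp only [Finset.coe_product, Set.mem_prod, Finset.mem_coe, Finset.mem_range]
    refine ⟨?_, Nat.mod_lt _ hq⟩
    rw [Nat.mul_div_cancel _ (Nat.factorial_pos a)]
    refine P_mono ?_ (mul_mem hK (pow_mem q (a / q)))
    have := Nat.mul_div_le a q
    omega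
  · have key : ∀ N a N' a', N ∈ bad q n → a ∈ parts n N → N' ∈ bad q n → a' ∈ parts n N' →
        (N / a !) * (q !) ^ (a / q) = (N' / a' !) * (q !) ^ (a' / q) → a % q = a' % q →
        a / q < a' / q → False := by
      intro N a N' a' hN ha hN' ha' h1 h2 h3
      have hNP : N ∈ P n := (Finset.mem_filter.1 hN).1
      have hNP' : N' ∈ P n := (Finset.mem_filter.1 hN').1
      have hbad := (Finset.mem_filter.1 hN).2
      obtain ⟨han, K, hK, rfl⟩ := remove_part hNP ha
      obtain ⟨han', K', hK', rfl⟩ := remove_part hNP' ha'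
      rw [Nat.mul_div_cancel _ (Nat.factorial_pos a), Nat.mul_div_cancel _ (Nat.factorial_pos a')]
        at h1
      obtain ⟨c, hc⟩ := Nat.exists_eq_add_of_lt h3
      have hqpos : 0 < (q !) ^ (a / q) := pow_pos (Nat.factorial_pos q) _
      have h4 : K = K' * (q !) ^ c * q ! := by
        have h5 : K * (q !) ^ (a / q) = (K' * (q !) ^ c * q !) * (q !) ^ (a / q) := by
          rw [h1, hc]; ring
        exact Nat.eq_of_mul_eq_mul_right hqpos h5
      have e1 := Nat.div_add_mod a q
      have e2 := Nat.div_add_mod a' q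
      have e3 : a' = a + q * c + q := by
        rw [← e1, ← e2, hc, h2]; ring
      apply hbad
      refine ⟨K' * (q !) ^ c * a !, by omega, ?_, ?_⟩
      · refine P_mono ?_ (mul_mem (mul_mem hK' (pow_mem q c)) (factorial_mem a))
        omega
      · rw [h4]; ring
    rintro ⟨N, a⟩ hx ⟨N', a'⟩ hx' heq
    simp only [Finset.coe_sigma, Set.mem_sigma_iff, Finset.mem_coe, Multiset.mem_toFinset] at hx hx'
    simp only [Prod.mk.injEq] at heq
    obtain ⟨h1, h2⟩ := heq
    have h3 : a / q = a' / q := by
      rcases lt_trichotomy (a / q) (a' / q) with h | h | h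
      · exact (key N a N' a' hx.1 hx.2 hx'.1 hx'.2 h1 h2 h).elim
      · exact h
      · exact (key N' a' N a hx'.1 hx'.2 hx.1 hx.2 h1.symm h2.symm h).elim
    have h4 : a = a' := by
      rw [← Nat.div_add_mod a q, ← Nat.div_add_mod a' q, h2, h3]
    subst h4
    have h5 : N / a ! = N' / a ! :=
      Nat.eq_of_mul_eq_mul_right (pow_pos (Nat.factorial_pos q) _) h1
    obtain ⟨-, K, hK, rfl⟩ := remove_part (Finset.mem_filter.1 hx.1).1 hx.2
    obtain ⟨-, K', hK', rfl⟩ := remove_part (Finset.mem_filter.1 hx'.1).1 hx'.2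
    rw [Nat.mul_div_cancel _ (Nat.factorial_pos a), Nat.mul_div_cancel _ (Nat.factorial_pos a)]
      at h5
    rw [h5]

/-- The elements of `P n` whose chosen partition has few distinct parts. -/
theorem card_few (n R : ℕ) :
    ((P n).filter fun N => (parts n N).toFinset.card < R).card ≤ ((n + 1) * (n + 1)) ^ R := by
  classical
  have h : ((Finset.univ : Finset (Fin R → Fin (n + 1) × Fin (n + 1)))).card
      = ((n + 1) * (n + 1)) ^ R := by
    simp [Finset.card_univ]
  rw [← h]
  refine Finset.card_le_card_of_surjOn (fun f => ((∑ i, Multiset.replicate (f i).2.val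
    (f i).1.val).map Nat.factorial).prod) ?_
  intro N hN
  simp only [Finset.coe_filter, Set.mem_ofPred_eq] at hN
  obtain ⟨hNP, hc⟩ := hN
  obtain ⟨h1, h2, h3⟩ := parts_spec hNP
  set l := parts n N with hl
  set s := l.toFinset with hs
  -- enumerate the distinct parts
  obtain ⟨e⟩ : Nonempty (s ↪ Fin R) := by
    apply Function.Embedding.nonempty_of_card_le
    simp only [Fintype.card_coe, Fintype.card_fin]
    omega
  have hle : ∀ a ∈ l, a ≤ n := fun a ha => by
    rw [← h2]; exact Multiset.single_le_sum (by simp) a ha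
  have hcount : ∀ a, l.count a ≤ n := by
    intro a
    by_cases ha : a ∈ l
    · have h4 : l.count a * 1 ≤ l.count a * a := Nat.mul_le_mul_left _ (h1 a ha)
      have h5 : (Multiset.replicate (l.count a) a).sum ≤ l.sum := by
        obtain ⟨l', hl'⟩ := Multiset.le_iff_exists_add.1
          (Multiset.le_count_iff_replicate_le.1 (le_refl (l.count a)))
        conv_rhs => rw [hl']
        simp
      rw [Multiset.sum_replicate, smul_eq_mul] at h5
      omega
    · rw [Multiset.count_eq_zero_of_notMem ha]; omega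
  let f : Fin R → Fin (n + 1) × Fin (n + 1) := fun i =>
    if h : ∃ a : s, e a = i then
      (⟨h.choose.1, Nat.lt_succ_of_le (hle _ (Multiset.mem_toFinset.1 h.choose.2))⟩,
        ⟨l.count h.choose.1, Nat.lt_succ_of_le (hcount _)⟩)
    else (0, 0)
  refine ⟨f, by simp, ?_⟩
  have hfe : ∀ a : s, ((f (e a)).1.val = a.1) ∧ ((f (e a)).2.val = l.count a.1) := by
    intro a
    have hex : ∃ b : s, e b = e a := ⟨a, rfl⟩
    have hch : hex.choose = a := e.injective hex.choose_spec
    simp only [f, dif_pos hex, hch]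
    exact ⟨trivial, trivial⟩
  have hsum : ∑ i, Multiset.replicate (f i).2.val (f i).1.val = l := by
    have h4 : ∑ i, Multiset.replicate (f i).2.val (f i).1.val
        = ∑ i ∈ Finset.univ.map e, Multiset.replicate (f i).2.val (f i).1.val := by
      symm
      apply Finset.sum_subset (Finset.subset_univ _)
      intro i _ hi
      have hnot : ¬ ∃ a : s, e a = i := by
        rintro ⟨a, ha⟩
        apply hi
        rw [Finset.mem_map]
        exact ⟨a, Finset.mem_univ _, ha⟩
      simp only [f, dif_neg hnot]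
      simp
    rw [h4, Finset.sum_map]
    have h5 : ∑ a : s, Multiset.replicate (f (e a)).2.val (f (e a)).1.val
        = ∑ a ∈ s, Multiset.replicate (l.count a) a := by
      rw [← Finset.sum_coe_sort s]
      exact Finset.sum_congr rfl fun a _ => by rw [(hfe a).1, (hfe a).2]
    rw [h5]
    ext b
    rw [Multiset.count_sum']
    simp only [Multiset.count_replicate]
    rw [Finset.sum_ite_eq' s b]
    by_cases hb : b ∈ s
    · simp [hb]
    · rw [if_neg hb]
      exact (Multiset.count_eq_zero_of_notMem fun h => hb (Multiset.mem_toFinset.2 h)).symm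
  simp only [hsum]
  exact h3

theorem bad_le (q n R : ℕ) (hq : 0 < q) :
    R * (bad q n).card ≤ (P n).card * q + R * ((n + 1) * (n + 1)) ^ R := by
  classical
  have h1 := sum_bad q n hq
  have h2 := card_few n R
  set F := (bad q n).filter fun N => (parts n N).toFinset.card < R with hF
  set F' := (bad q n).filter fun N => ¬ (parts n N).toFinset.card < R with hF'
  have h3 : (bad q n).card = F.card + F'.card :=
    (Finset.card_filter_add_card_filter_not _).symm
  have h4 : F.card ≤ ((n + 1) * (n + 1)) ^ R := by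
    refine le_trans (Finset.card_le_card ?_) h2
    intro N hN
    rw [hF, Finset.mem_filter] at hN
    rw [Finset.mem_filter]
    exact ⟨(Finset.mem_filter.1 hN.1).1, hN.2⟩
  have h5 : R * F'.card ≤ ∑ N ∈ bad q n, (parts n N).toFinset.card := by
    calc R * F'.card = ∑ _N ∈ F', R := by rw [Finset.sum_const, smul_eq_mul, mul_comm]
      _ ≤ ∑ N ∈ F', (parts n N).toFinset.card := by
        refine Finset.sum_le_sum fun N hN => ?_
        rw [hF', Finset.mem_filter] at hN
        exact not_lt.1 hN.2
      _ ≤ _ := Finset.sum_le_sum_of_subset (Finset.filter_subset _ _)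
  rw [h3, mul_add]
  have h6 := Nat.mul_le_mul_left R h4
  omega

/-! ### Superpolynomial growth -/

/-- The primes. -/
noncomputable def pr (i : ℕ) : ℕ := Nat.nth Nat.Prime i

theorem pr_prime (i : ℕ) : (pr i).Prime := Nat.prime_nth_prime i

theorem pr_lt {i j : ℕ} (h : i < j) : pr i < pr j := Nat.nth_strictMono Nat.infinite_setOfPred_prime h

theorem fact_self (p : ℕ) (hp : p.Prime) : (p !).factorization p = 1 := by
  obtain ⟨m, rfl⟩ := Nat.exists_eq_succ_of_ne_zero hp.ne_zero
  rw [Nat.factorial_succ, Nat.factorization_mul (by omega) (Nat.factorial_ne_zero m)]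
  rw [Finsupp.add_apply, hp.factorization_self,
    Nat.factorization_eq_zero_of_not_dvd (n := m !) (p := m + 1)]
  rw [hp.dvd_factorial]
  omega

theorem prod_inj (K : ℕ) : ∀ e f : ℕ → ℕ,
    ∏ i ∈ range K, (pr i)! ^ e i = ∏ i ∈ range K, (pr i)! ^ f i → ∀ i < K, e i = f i := by
  induction K with
  | zero => intro e f _ i hi; omega
  | succ K ih =>
    intro e f h
    have hval : ∀ e : ℕ → ℕ, (∏ i ∈ range (K + 1), (pr i)! ^ e i).factorization (pr K) = e K := by
      intro e
      rw [Finset.prod_range_succ, Nat.factorization_mul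
        (Finset.prod_ne_zero_iff.2 fun i _ => pow_ne_zero _ (Nat.factorial_ne_zero _))
        (pow_ne_zero _ (Nat.factorial_ne_zero _)), Finsupp.add_apply, Nat.factorization_pow,
        Finsupp.smul_apply, fact_self _ (pr_prime K)]
      have h0 : (∏ i ∈ range K, (pr i)! ^ e i).factorization (pr K) = 0 := by
        apply Nat.factorization_eq_zero_of_not_dvd
        intro hd
        rw [(pr_prime K).prime.dvd_finsetProd_iff] at hd
        obtain ⟨i, hi, hd⟩ := hd
        have := (pr_prime K).dvd_of_dvd_pow hd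
        rw [(pr_prime K).dvd_factorial] at this
        have := pr_lt (Finset.mem_range.1 hi)
        omega
      rw [h0]
      simp
    have hK : e K = f K := by rw [← hval e, h, hval f]
    have h2 : ∏ i ∈ range K, (pr i)! ^ e i = ∏ i ∈ range K, (pr i)! ^ f i := by
      rw [Finset.prod_range_succ, Finset.prod_range_succ, hK] at h
      exact Nat.eq_of_mul_eq_mul_right (pow_pos (Nat.factorial_pos _) _) h
    intro i hi
    rcases Nat.lt_succ_iff_lt_or_eq.1 hi with h3 | rfl
    · exact ih e f h2 i h3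
    · exact hK

theorem prod_mem (K : ℕ) (e : ℕ → ℕ) :
    ∏ i ∈ range K, (pr i)! ^ e i ∈ P (∑ i ∈ range K, pr i * e i) := by
  induction K with
  | zero => simpa using one_mem 0
  | succ K ih =>
    rw [Finset.prod_range_succ, Finset.sum_range_succ]
    exact mul_mem ih (pow_mem _ _)

theorem growth (K : ℕ) : ∃ c : ℕ, 0 < c ∧ ∀ n, (n + 1) ^ K ≤ c * (P n).card := by
  classical
  rcases Nat.eq_zero_or_pos K with rfl | hK
  · exact ⟨1, one_pos, fun n => by
      have := Finset.card_pos.2 ⟨1, one_mem n⟩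
      simpa using this⟩
  set c := K * pr K with hc
  have hcpos : 0 < c := Nat.mul_pos hK (pr_prime K).pos
  refine ⟨c ^ K, pow_pos hcpos K, fun n => ?_⟩
  set m := n / c with hm
  have h1 : n + 1 ≤ c * (m + 1) := by
    have := Nat.lt_mul_div_succ n hcpos
    rw [hm]; omega
  have h2 : (m + 1) ^ K ≤ (P n).card := by
    have h3 : (Finset.univ : Finset (Fin K → Fin (m + 1))).card = (m + 1) ^ K := by simp
    rw [← h3]
    let ext : (Fin K → Fin (m + 1)) → ℕ → ℕ := fun f i => if h : i < K then (f ⟨i, h⟩).val else 0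
    refine Finset.card_le_card_of_injOn (fun f => ∏ i ∈ range K, (pr i)! ^ ext f i) ?_ ?_
    · intro f _
      refine P_mono ?_ (prod_mem K (ext f))
      calc ∑ i ∈ range K, pr i * ext f i ≤ ∑ i ∈ range K, pr K * m := by
            refine Finset.sum_le_sum fun i hi => Nat.mul_le_mul ?_ ?_
            · exact (pr_lt (Finset.mem_range.1 hi)).le
            · simp only [ext, dif_pos (Finset.mem_range.1 hi)]
              exact Nat.lt_succ_iff.1 (f _).2
        _ = c * m := by rw [Finset.sum_const, card_range, smul_eq_mul, hc]; ring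
        _ ≤ n := Nat.mul_div_le n c
    · intro f _ g _ hfg
      have := prod_inj K _ _ hfg
      funext i
      have h4 := this i.1 i.2
      simp only [ext, dif_pos i.2] at h4
      exact Fin.ext h4
  calc (n + 1) ^ K ≤ (c * (m + 1)) ^ K := Nat.pow_le_pow_left h1 K
    _ = c ^ K * (m + 1) ^ K := mul_pow _ _ _
    _ ≤ c ^ K * (P n).card := Nat.mul_le_mul_left _ h2

theorem bad_small (q : ℕ) (hq : 0 < q) (ε : ℝ) (hε : 0 < ε) :
    ∀ᶠ n : ℕ in atTop, ((bad q n).card : ℝ) ≤ ε * (P n).card := by
  obtain ⟨R, hR⟩ := exists_nat_gt (2 * q / ε)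
  have hRpos : (0 : ℝ) < R := lt_of_le_of_lt (by positivity) hR
  obtain ⟨c, hc, hgr⟩ := growth (2 * R + 1)
  obtain ⟨N0, hN0⟩ := exists_nat_gt (2 * c / ε)
  filter_upwards [eventually_ge_atTop N0] with n hn
  have h1 : (R : ℝ) * (bad q n).card ≤ (P n).card * q + R * (((n : ℝ) + 1) * (n + 1)) ^ R := by
    exact_mod_cast bad_le q n R hq
  have h2 : ((n : ℝ) + 1) ^ (2 * R + 1) ≤ c * (P n).card := by exact_mod_cast hgr n
  have h3 : (((n : ℝ) + 1) * (n + 1)) ^ R * (n + 1) = ((n : ℝ) + 1) ^ (2 * R + 1) := by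
    rw [pow_succ, pow_mul]; ring
  have hn1 : 2 * c / ε < (n : ℝ) + 1 := by
    have : (N0 : ℝ) ≤ n := by exact_mod_cast hn
    linarith
  have hnpos : (0 : ℝ) < (n : ℝ) + 1 := by positivity
  have hPpos : (0 : ℝ) ≤ (P n).card := by positivity
  have h4 : (((n : ℝ) + 1) * (n + 1)) ^ R ≤ ε / 2 * (P n).card := by
    rw [← h3] at h2
    have h5 : (((n : ℝ) + 1) * (n + 1)) ^ R * (n + 1) ≤ ε / 2 * (P n).card * (n + 1) := by
      refine h2.trans ?_
      have : (c : ℝ) ≤ ε / 2 * (n + 1) := by
        rw [div_lt_iff₀ hε] at hn1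
        linarith
      nlinarith
    exact le_of_mul_le_mul_right h5 hnpos
  have h6 : (q : ℝ) ≤ ε / 2 * R := by
    rw [div_lt_iff₀ hε] at hR
    linarith
  have h7 : (R : ℝ) * (bad q n).card ≤ R * (ε * (P n).card) := by
    nlinarith [mul_le_mul_of_nonneg_left h6 hPpos, mul_le_mul_of_nonneg_left h4 hRpos.le]
  exact le_of_mul_le_mul_left h7 hRpos

/-! ### Sidon subsets -/

/-- The set of values of multinomial coefficients with upper entry `n`. -/
def multinomialValues (n : ℕ) : Finset ℕ :=
  (Finset.univ : Finset (Nat.Partition n)).image fun p => n ! / (p.parts.map Nat.factorial).prod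

/-- A finite set of natural numbers is a Sidon set. -/
def IsSidon (S : Finset ℕ) : Prop :=
  ∀ x ∈ S, ∀ y ∈ S, ∀ u ∈ S, ∀ v ∈ S, x + y = u + v → (x = u ∧ y = v) ∨ (x = v ∧ y = u)

open Classical in
/-- The largest size of a Sidon subset of a finite set. -/
noncomputable def sidonNumber (A : Finset ℕ) : ℕ :=
  (A.powerset.filter IsSidon).sup Finset.card

theorem multinomialValues_eq (n : ℕ) : multinomialValues n = (P n).image fun N => n ! / N := by
  rw [multinomialValues, P, Finset.image_image]
  rfl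

theorem P_dvd {n N : ℕ} (h : N ∈ P n) : N ∣ n ! := by
  obtain ⟨l, -, rfl, rfl⟩ := mem_P.1 h
  induction l using Multiset.induction with
  | empty => simp
  | cons a l ih =>
    simp only [Multiset.map_cons, Multiset.prod_cons, Multiset.sum_cons]
    have h1 : (l.map Nat.factorial).prod ∈ P l.sum ∨ True := Or.inr trivial
    have h2 : (l.map Nat.factorial).prod ∣ (l.sum)! := by
      clear h ih h1
      induction l using Multiset.induction with
      | empty => simp
      | cons b l ih =>
        simp only [Multiset.map_cons, Multiset.prod_cons, Multiset.sum_cons]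
        exact (Nat.mul_dvd_mul_left _ ih).trans (Nat.factorial_mul_factorial_dvd_factorial_add _ _)
    exact (Nat.mul_dvd_mul_left _ h2).trans (Nat.factorial_mul_factorial_dvd_factorial_add _ _)

theorem div_inj {n N M : ℕ} (hN : N ∈ P n) (hM : M ∈ P n) (h : n ! / N = n ! / M) : N = M := by
  obtain ⟨a, ha⟩ := P_dvd hN
  obtain ⟨b, hb⟩ := P_dvd hM
  have hNpos := P_pos hN
  have hMpos := P_pos hM
  have h1 : n ! / N = a := by rw [ha]; exact Nat.mul_div_cancel_left a hNpos
  have h2 : n ! / M = b := by rw [hb]; exact Nat.mul_div_cancel_left b hMpos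
  have h3 : a = b := by rw [← h1, h, h2]
  subst h3
  have hapos : 0 < a := by
    rcases Nat.eq_zero_or_pos a with rfl | h
    · simp at ha
      exact absurd ha (Nat.factorial_ne_zero n)
    · exact h
  exact Nat.eq_of_mul_eq_mul_right hapos (ha.symm.trans hb)

theorem card_multinomialValues (n : ℕ) : (multinomialValues n).card = (P n).card := by
  rw [multinomialValues_eq]
  exact Finset.card_image_of_injOn fun N hN M hM h => div_inj hN hM h

/-- Sidon subsets of `{1, ..., L}` have at most `2 √L` elements. -/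
theorem sidon_interval (L : ℕ) (A : Finset ℕ) (hA : A ⊆ Finset.Icc 1 L) (hS : IsSidon A) :
    (A.card : ℝ) ≤ 2 * Real.sqrt L := by
  classical
  have h1 : (A ×ˢ A).card ≤ 2 * ((A ×ˢ A).image fun p => p.1 + p.2).card := by
    refine Finset.card_le_mul_card_image _ 2 ?_
    intro b hb
    obtain ⟨⟨x, y⟩, hxy, rfl⟩ := Finset.mem_image.1 hb
    rw [Finset.mem_product] at hxy
    calc (((A ×ˢ A).filter fun p => p.1 + p.2 = x + y)).card
        ≤ ({(x, y), (y, x)} : Finset (ℕ × ℕ)).card := by
          refine Finset.card_le_card ?_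
          rintro ⟨u, v⟩ huv
          rw [Finset.mem_filter, Finset.mem_product] at huv
          rcases hS u huv.1.1 v huv.1.2 x hxy.1 y hxy.2 huv.2 with ⟨h, h'⟩ | ⟨h, h'⟩
          · simp [h, h']
          · simp [h, h']
      _ ≤ 2 := Finset.card_le_two
  have h2 : ((A ×ˢ A).image fun p => p.1 + p.2).card ≤ 2 * L := by
    calc ((A ×ˢ A).image fun p => p.1 + p.2).card ≤ (Finset.Icc 1 (2 * L)).card := by
          refine Finset.card_le_card ?_
          intro b hb
          obtain ⟨⟨x, y⟩, hxy, rfl⟩ := Finset.mem_image.1 hb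
          rw [Finset.mem_product] at hxy
          have hx := Finset.mem_Icc.1 (hA hxy.1)
          have hy := Finset.mem_Icc.1 (hA hxy.2)
          rw [Finset.mem_Icc]
          simp only at hx hy ⊢
          omega
      _ = 2 * L := by simp
  rw [Finset.card_product] at h1
  have h3 : A.card * A.card ≤ 4 * L := by omega
  have h4 : ((A.card : ℝ)) ^ 2 ≤ 4 * L := by
    rw [sq]; exact_mod_cast h3
  have h5 : (2 * Real.sqrt L) ^ 2 = 4 * L := by
    rw [mul_pow, Real.sq_sqrt (by positivity)]; ring
  rw [← h5] at h4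
  exact (sq_le_sq₀ (by positivity) (by positivity)).1 h4

/-- The elements of `P n` outside `bad l n` can be divided by `l`. -/
theorem good_div {l n N : ℕ} (hl : 0 < l) (hN : N ∈ P n) (hb : N ∉ bad l n) :
    l ∣ N ∧ N / l ∈ P n := by
  classical
  have h1 : ∃ K, l ≤ n ∧ K ∈ P (n - l) ∧ N = K * l ! := by
    by_contra h
    exact hb (Finset.mem_filter.2 ⟨hN, h⟩)
  obtain ⟨K, hln, hK, rfl⟩ := h1
  obtain ⟨m, rfl⟩ := Nat.exists_eq_succ_of_ne_zero hl.ne'
  have h2 : K * (m + 1)! = (m + 1) * (K * m !) := by rw [Nat.factorial_succ]; ring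
  refine ⟨⟨K * m !, h2⟩, ?_⟩
  rw [h2, Nat.mul_div_cancel_left _ (Nat.succ_pos m)]
  exact P_mono (by omega) (mul_mem hK (factorial_mem m))

/-- The main inequality. -/
theorem main_bound (n L : ℕ) (hL : 0 < L) (δ : ℝ)
    (hδ : ∀ l ∈ Finset.Icc 1 L, ((bad l n).card : ℝ) ≤ δ * (P n).card)
    (S : Finset ℕ) (hSM : S ⊆ multinomialValues n) (hS : IsSidon S) :
    (S.card : ℝ) ≤ (2 / Real.sqrt L + δ) * (P n).card := by
  classical
  set S' := (P n).filter fun N => n ! / N ∈ S with hS'
  have hcard : S.card ≤ S'.card := by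
    refine Finset.card_le_card_of_surjOn (fun N => n ! / N) ?_
    intro x hx
    have := hSM hx
    rw [multinomialValues_eq, Finset.mem_image] at this
    obtain ⟨N, hN, rfl⟩ := this
    exact ⟨N, Finset.mem_coe.2 (Finset.mem_filter.2 ⟨hN, hx⟩), rfl⟩
  -- the sets `T l`
  obtain ⟨good, hgood⟩ : ∃ good : ℕ → Finset ℕ, ∀ l, good l = P n \ bad l n := ⟨_, fun _ => rfl⟩
  obtain ⟨T, hT⟩ : ∃ T : ℕ → Finset ℕ, ∀ l, T l = (good l).filter fun N => N / l ∈ S' :=
    ⟨_, fun _ => rfl⟩
  have hTmem : ∀ l N, N ∈ T l ↔ (N ∈ P n ∧ N ∉ bad l n) ∧ N / l ∈ S' := by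
    intro l N
    rw [hT, Finset.mem_filter, hgood, Finset.mem_sdiff]
  have hlow : ∀ l ∈ Finset.Icc 1 L, S'.card ≤ (T l).card + (bad l n).card := by
    intro l hl
    have hlpos : 0 < l := (Finset.mem_Icc.1 hl).1
    have hsub : S' ⊆ (T l).image (fun N => N / l) ∪ (P n \ (good l).image (fun N => N / l)) := by
      intro M hM
      have hMP : M ∈ P n := (Finset.mem_filter.1 hM).1
      rw [Finset.mem_union]
      by_cases h : M ∈ (good l).image (fun N => N / l)
      · left
        obtain ⟨N, hN, rfl⟩ := Finset.mem_image.1 h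
        refine Finset.mem_image.2 ⟨N, ?_, rfl⟩
        rw [hT]
        exact Finset.mem_filter.2 ⟨hN, hM⟩
      · right
        exact Finset.mem_sdiff.2 ⟨hMP, h⟩
    have hgoodim : (good l).image (fun N => N / l) ⊆ P n := by
      intro M hM
      obtain ⟨N, hN, rfl⟩ := Finset.mem_image.1 hM
      rw [hgood] at hN
      have := Finset.mem_sdiff.1 hN
      exact (good_div hlpos this.1 this.2).2
    have hinj : ((good l).image (fun N => N / l)).card = (good l).card := by
      refine Finset.card_image_of_injOn ?_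
      intro N hN M hM h
      rw [Finset.mem_coe, hgood] at hN hM
      have h1 := Finset.mem_sdiff.1 hN
      have h2 := Finset.mem_sdiff.1 hM
      obtain ⟨a, rfl⟩ := (good_div hlpos h1.1 h1.2).1
      obtain ⟨b, rfl⟩ := (good_div hlpos h2.1 h2.2).1
      simp only [Nat.mul_div_cancel_left _ hlpos] at h
      rw [h]
    have hgc : (good l).card + (bad l n).card = (P n).card := by
      have : bad l n ⊆ P n := Finset.filter_subset _ _
      rw [hgood]
      exact Finset.card_sdiff_add_card_eq_card this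
    calc S'.card ≤ _ := Finset.card_le_card hsub
      _ ≤ ((T l).image (fun N => N / l)).card + (P n \ (good l).image (fun N => N / l)).card :=
        Finset.card_union_le _ _
      _ ≤ (T l).card + (bad l n).card := by
        have h1 := Finset.card_image_le (s := T l) (f := fun N => N / l)
        have h2 := Finset.card_sdiff_add_card_eq_card hgoodim
        rw [hinj] at h2
        omega
  -- double counting
  have hdouble : ∑ l ∈ Finset.Icc 1 L, (T l).card
      = ∑ N ∈ P n, ((Finset.Icc 1 L).filter fun l => N ∈ T l).card := by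
    have h1 : ∀ l ∈ Finset.Icc 1 L, (T l).card = ∑ N ∈ P n, if N ∈ T l then 1 else 0 := by
      intro l _
      have hsub : T l ⊆ P n := fun N hN => ((hTmem l N).1 hN).1.1
      rw [Finset.sum_ite_mem, Finset.inter_eq_right.2 hsub, Finset.sum_const, smul_eq_mul, mul_one]
    rw [Finset.sum_congr rfl h1, Finset.sum_comm]
    refine Finset.sum_congr rfl fun N _ => ?_
    rw [Finset.card_filter]
  have hup : ∀ N ∈ P n, ((((Finset.Icc 1 L).filter fun l => N ∈ T l).card : ℕ) : ℝ)
      ≤ 2 * Real.sqrt L := by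
    intro N hN
    apply sidon_interval L _ (Finset.filter_subset _ _)
    have hNpos := P_pos hN
    obtain ⟨x, hx⟩ := P_dvd hN
    have hxpos : 0 < x := by
      rcases Nat.eq_zero_or_pos x with rfl | h
      · simp at hx
        exact absurd hx (Nat.factorial_ne_zero n)
      · exact h
    have hmemS : ∀ l, l ∈ (Finset.Icc 1 L).filter (fun l => N ∈ T l) → l * x ∈ S := by
      intro l hl
      obtain ⟨hl1, hl2⟩ := Finset.mem_filter.1 hl
      have hlpos : 0 < l := (Finset.mem_Icc.1 hl1).1
      obtain ⟨h5, h4⟩ := (hTmem l N).1 hl2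
      obtain ⟨M, hM⟩ := (good_div hlpos h5.1 h5.2).1
      have h6 := (Finset.mem_filter.1 h4).2
      have hMpos : 0 < M := by
        rcases Nat.eq_zero_or_pos M with rfl | h
        · omega
        · exact h
      rw [hM, Nat.mul_div_cancel_left _ hlpos, hx, hM] at h6
      have h7 : l * M * x / M = l * x := by
        rw [show l * M * x = M * (l * x) by ring]
        exact Nat.mul_div_cancel_left _ hMpos
      rwa [h7] at h6
    intro a ha b hb c hc d hd habcd
    have h8 : a * x + b * x = c * x + d * x := by rw [← add_mul, ← add_mul, habcd]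
    rcases hS _ (hmemS a ha) _ (hmemS b hb) _ (hmemS c hc) _ (hmemS d hd) h8 with ⟨h, h'⟩ | ⟨h, h'⟩
    · exact Or.inl ⟨Nat.eq_of_mul_eq_mul_right hxpos h, Nat.eq_of_mul_eq_mul_right hxpos h'⟩
    · exact Or.inr ⟨Nat.eq_of_mul_eq_mul_right hxpos h, Nat.eq_of_mul_eq_mul_right hxpos h'⟩
  have hLr : (0 : ℝ) < L := by exact_mod_cast hL
  have hsL : 0 < Real.sqrt L := Real.sqrt_pos.2 hLr
  have h1 : (L : ℝ) * S'.card ≤ ∑ l ∈ Finset.Icc 1 L, (((T l).card : ℝ) + (bad l n).card) := by
    calc (L : ℝ) * S'.card = ∑ _l ∈ Finset.Icc 1 L, (S'.card : ℝ) := by simp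
      _ ≤ _ := Finset.sum_le_sum fun l hl => by exact_mod_cast hlow l hl
  have h2 : ∑ l ∈ Finset.Icc 1 L, ((T l).card : ℝ) ≤ (P n).card * (2 * Real.sqrt L) := by
    have : ∑ l ∈ Finset.Icc 1 L, ((T l).card : ℝ)
        = ∑ N ∈ P n, ((((Finset.Icc 1 L).filter fun l => N ∈ T l).card : ℕ) : ℝ) := by
      exact_mod_cast hdouble
    rw [this]
    calc _ ≤ ∑ _N ∈ P n, 2 * Real.sqrt L := Finset.sum_le_sum hup
      _ = _ := by rw [Finset.sum_const, nsmul_eq_mul]
  have h3 : ∑ l ∈ Finset.Icc 1 L, ((bad l n).card : ℝ) ≤ L * (δ * (P n).card) := by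
    calc _ ≤ ∑ _l ∈ Finset.Icc 1 L, δ * (P n).card := Finset.sum_le_sum hδ
      _ = _ := by simp
  rw [Finset.sum_add_distrib] at h1
  have h4 : (S.card : ℝ) ≤ S'.card := by exact_mod_cast hcard
  have h5 : (L : ℝ) * S'.card ≤ L * ((2 / Real.sqrt L + δ) * (P n).card) := by
    have h6 : (L : ℝ) * ((2 / Real.sqrt L + δ) * (P n).card)
        = (P n).card * (2 * Real.sqrt L) + L * (δ * (P n).card) := by
      have h7 : (L : ℝ) = Real.sqrt L * Real.sqrt L := (Real.mul_self_sqrt hLr.le).symm
      have h8 : (L : ℝ) * (2 / Real.sqrt L) = 2 * Real.sqrt L := by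
        rw [h7]
        have := hsL.ne'
        field_simp
        rw [Real.sqrt_sq hsL.le]
      rw [add_mul, mul_add, ← mul_assoc, h8]
      ring
    rw [h6]
    linarith
  exact h4.trans (le_of_mul_le_mul_left h5 hLr)

theorem sidonNumber_le (A : Finset ℕ) : sidonNumber A ≤ A.card := by
  classical
  refine Finset.sup_le fun S hS => ?_
  exact Finset.card_le_card (Finset.mem_powerset.1 (Finset.mem_filter.1 hS).1)

/-- `s(n) = o(M(n))`. -/
theorem sidonNumber_small (ε : ℝ) (hε : 0 < ε) : ∀ᶠ n : ℕ in atTop,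
    (sidonNumber (multinomialValues n) : ℝ) ≤ ε * (multinomialValues n).card := by
  classical
  obtain ⟨L, hL⟩ := exists_nat_gt ((4 / ε) ^ 2)
  have hLr : (0 : ℝ) < L := lt_of_le_of_lt (by positivity) hL
  have hLpos : 0 < L := by exact_mod_cast hLr
  have h1 : 2 / Real.sqrt L ≤ ε / 2 := by
    have h2 : 4 / ε < Real.sqrt L := Real.lt_sqrt_of_sq_lt hL
    rw [div_le_iff₀ (Real.sqrt_pos.2 hLr)]
    rw [div_lt_iff₀ hε] at h2
    linarith
  have h3 : ∀ᶠ n : ℕ in atTop, ∀ l ∈ Finset.Icc 1 L,
      ((bad l n).card : ℝ) ≤ ε / 2 * (P n).card := by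
    rw [Filter.eventually_all_finset]
    intro l hl
    exact bad_small l (Finset.mem_Icc.1 hl).1 _ (by positivity)
  filter_upwards [h3] with n hn
  obtain ⟨S, hS, hcard⟩ : ∃ S ∈ (multinomialValues n).powerset.filter IsSidon,
      sidonNumber (multinomialValues n) = S.card := by
    refine Finset.exists_mem_eq_sup _ ⟨∅, ?_⟩ _
    refine Finset.mem_filter.2 ⟨Finset.empty_mem_powerset _, ?_⟩
    intro x hx
    simp at hx
  obtain ⟨hS1, hS2⟩ := Finset.mem_filter.1 hS
  rw [hcard, card_multinomialValues]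
  refine (main_bound n L hLpos (ε / 2) hn S (Finset.mem_powerset.1 hS1) hS2).trans ?_
  refine mul_le_mul_of_nonneg_right ?_ (by positivity)
  linarith

/-- The number `M(n) - s(n)` of elements that have to be deleted from the set of multinomial
coefficients in order to leave a Sidon set is asymptotically equivalent to `M(n)`. -/
theorem result : Asymptotics.IsEquivalent atTop
    (fun n : ℕ => ((multinomialValues n).card : ℝ) - sidonNumber (multinomialValues n))
    (fun n : ℕ => ((multinomialValues n).card : ℝ)) := by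
  rw [Asymptotics.IsEquivalent, Asymptotics.isLittleO_iff]
  intro ε hε
  filter_upwards [sidonNumber_small ε hε] with n hn
  simp only [Pi.sub_apply, sub_sub_cancel_left, norm_neg, Real.norm_natCast]
  exact hn

end Pool.Agent.Results.MP_0896da_co.SidonDefect
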